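import Pool.Agent.Q324.MCut.Defs

/-!
# Copies of `S_{2,2,2,2}` in a graph
-/

namespace Pool.Agent.Q324.MCut

/-- the pairs of adjacent vertices of `S2222` -/
def prs : List (Fin 9 × Fin 9) := [(0, 1), (0, 2), (0, 3), (0, 4), (1, 5), (2, 6), (3, 7), (4, 8)]

theorem s2222_adj (i j : Fin 9) : S2222.Adj i j ↔ (i, j) ∈ prs ∨ (j, i) ∈ prs := by
  unfold S2222 prs
  rw [SimpleGraph.fromEdgeSet_adj]
  revert i j
  decide

/-- an injective map with the right adjacencies -/
def Hit {V : Type*} (ad : V → V → Prop) (f : Fin 9 → V) : Prop :=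
  Function.Injective f ∧ ∀ p ∈ prs, ad (f p.1) (f p.2)

theorem free_iff {V : Type*} (G : SimpleGraph V) : S2222.Free G ↔ ∀ f, ¬ Hit G.Adj f := by
  constructor
  · rintro h f ⟨h1, h2⟩
    refine h ⟨⟨⟨f, ?_⟩, h1⟩⟩
    intro i j hij
    rw [s2222_adj] at hij
    rcases hij with hij | hij
    · exact h2 _ hij
    · exact (h2 _ hij).symm
  · rintro h ⟨⟨f, hf⟩⟩
    refine h f ⟨hf, fun p hp => f.map_rel ?_⟩
    rw [s2222_adj]
    exact Or.inl hp

/-- If the neighbours of `c` are among four vertices, and the neighbours of one of these are among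
`c` and the three others, there is no copy of `S2222` with centre `c`. -/
theorem no_centre {V : Type*} {ad : V → V → Prop} {f : Fin 9 → V} (hf : Hit ad f)
    {n1 n2 n3 s : V} (h1 : ∀ t, ad (f 0) t → t = n1 ∨ t = n2 ∨ t = n3 ∨ t = s)
    (h2 : ∀ t, ad s t → t = f 0 ∨ t = n1 ∨ t = n2 ∨ t = n3) : False := by
  classical
  obtain ⟨hi, ha⟩ := hf
  have a1 := h1 _ (ha (0, 1) (by simp [prs]))
  have a2 := h1 _ (ha (0, 2) (by simp [prs]))
  have a3 := h1 _ (ha (0, 3) (by simp [prs]))
  have a4 := h1 _ (ha (0, 4) (by simp [prs]))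
  have b1 := ha (1, 5) (by simp [prs])
  have b2 := ha (2, 6) (by simp [prs])
  have b3 := ha (3, 7) (by simp [prs])
  have b4 := ha (4, 8) (by simp [prs])
  simp only at a1 a2 a3 a4 b1 b2 b3 b4
  have hne : ∀ i j : Fin 9, i ≠ j → f i ≠ f j := fun i j h e => h (hi e)
  have key : ∀ n : V, (n = n1 ∨ n = n2 ∨ n = n3 ∨ n = s) →
      n = f 1 ∨ n = f 2 ∨ n = f 3 ∨ n = f 4 := by
    set F : Finset V := {f 1, f 2, f 3, f 4} with hF
    set N : Finset V := {n1, n2, n3, s} with hN
    have hFc : F.card = 4 := by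
      rw [hF, Finset.card_insert_of_notMem, Finset.card_insert_of_notMem,
        Finset.card_insert_of_notMem, Finset.card_singleton]
      · simpa using hne 3 4 (by decide)
      · simp only [Finset.mem_insert, Finset.mem_singleton, not_or]
        exact ⟨hne 2 3 (by decide), hne 2 4 (by decide)⟩
      · simp only [Finset.mem_insert, Finset.mem_singleton, not_or]
        exact ⟨hne 1 2 (by decide), hne 1 3 (by decide), hne 1 4 (by decide)⟩
    have hNc : N.card ≤ 4 := Finset.card_le_four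
    have hsub : F ⊆ N := by
      intro t ht
      simp only [hF, Finset.mem_insert, Finset.mem_singleton] at ht
      simp only [hN, Finset.mem_insert, Finset.mem_singleton]
      rcases ht with rfl | rfl | rfl | rfl
      · exact a1
      · exact a2
      · exact a3
      · exact a4
    have heq : F = N := Finset.eq_of_subset_of_card_le hsub (by omega)
    intro n hn
    have : n ∈ F := by
      rw [heq, hN]
      simpa using hn
    simpa [hF] using this
  have k1 := key n1 (Or.inl rfl)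
  have k2 := key n2 (Or.inr (Or.inl rfl))
  have k3 := key n3 (Or.inr (Or.inr (Or.inl rfl)))
  have ks := key s (Or.inr (Or.inr (Or.inr rfl)))
  have kk : ∀ (g : V) (n : V), g ≠ f 1 → g ≠ f 2 → g ≠ f 3 → g ≠ f 4 →
      (n = f 1 ∨ n = f 2 ∨ n = f 3 ∨ n = f 4) → g ≠ n := by
    intro g n g1 g2 g3 g4 hn
    rcases hn with hn | hn | hn | hn <;> rw [hn] <;> assumption
  have fin : ∀ g : V, g ≠ f 0 → g ≠ f 1 → g ≠ f 2 → g ≠ f 3 → g ≠ f 4 → ¬ ad s g := by
    intro g g0 g1 g2 g3 g4 hs
    rcases h2 _ hs with h | h | h | h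
    · exact g0 h
    · exact kk g n1 g1 g2 g3 g4 k1 h
    · exact kk g n2 g1 g2 g3 g4 k2 h
    · exact kk g n3 g1 g2 g3 g4 k3 h
  rcases ks with e | e | e | e
  · rw [← e] at b1
    exact fin (f 5) (hne 5 0 (by decide)) (hne 5 1 (by decide)) (hne 5 2 (by decide))
      (hne 5 3 (by decide)) (hne 5 4 (by decide)) b1
  · rw [← e] at b2
    exact fin (f 6) (hne 6 0 (by decide)) (hne 6 1 (by decide)) (hne 6 2 (by decide))
      (hne 6 3 (by decide)) (hne 6 4 (by decide)) b2
  · rw [← e] at b3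
    exact fin (f 7) (hne 7 0 (by decide)) (hne 7 1 (by decide)) (hne 7 2 (by decide))
      (hne 7 3 (by decide)) (hne 7 4 (by decide)) b3
  · rw [← e] at b4
    exact fin (f 8) (hne 8 0 (by decide)) (hne 8 1 (by decide)) (hne 8 2 (by decide))
      (hne 8 3 (by decide)) (hne 8 4 (by decide)) b4

end Pool.Agent.Q324.MCut
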