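import Mathlib

/-!
# Matching cuts: definitions
-/

namespace Pool.Agent.Q324.MCut

/-- The graph `S_{2,2,2,2}` on `{0, …, 8}`: the centre `0` is adjacent to `1, 2, 3, 4`, and `i` is
adjacent to `i + 4` for `i = 1, 2, 3, 4`. -/
def S2222 : SimpleGraph (Fin 9) :=
  SimpleGraph.fromEdgeSet {s(0, 1), s(0, 2), s(0, 3), s(0, 4), s(1, 5), s(2, 6), s(3, 7), s(4, 8)}

/-- `G` has a matching cut: the vertex set is partitioned into nonempty sets `A` and `V ∖ A` such
that the edges between them form a matching, that is, no two different edges `uv` and `uw` join `A`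
and `V ∖ A`. -/
def HasMatchingCut {V : Type*} (G : SimpleGraph V) : Prop :=
  ∃ A : Set V, A.Nonempty ∧ Aᶜ.Nonempty ∧
    ∀ u v w, G.Adj u v → G.Adj u w → ¬ (u ∈ A ↔ v ∈ A) → ¬ (u ∈ A ↔ w ∈ A) → v = w

end Pool.Agent.Q324.MCut
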