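import Pool.Agent.Q324.MCut.Red

/-!
# Hardness
-/

namespace Pool.Agent.Q324.MCut

open Pool.Agent.NPC Pool.Agent.H692R2 Pool.Agent.Q324.Lab

/-- satisfiability of a list of constraints -/
def RSat (C : Con) : Prop :=
  ∃ τ : ℕ → Bool, τ 0 ≠ τ 1 ∧ ∀ c ∈ C, τ c.1 = τ c.2.1 ∨ τ c.1 = τ c.2.2

/-- admissible lists of constraints -/
def COk (C : Con) (N : ℕ) : Prop :=
  2 ≤ N ∧ (∀ c ∈ C, c.1 < N ∧ c.2.1 < N ∧ c.2.2 < N) ∧ ∀ v < N, (v, 0, 1) ∈ C

section

variable {C : Con} {N : ℕ}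

theorem la_of {a b : Lb} (ha : a ∈ vs C N) (hb : b ∈ vs C N) (hne : a ≠ b) (h : b ∈ nb C a) :
    La (vs C N) (ad C) a b := by
  refine ⟨ha, hb, ?_⟩
  rw [sym_iff]
  exact ⟨hne, Or.inl (by simpa only [ad, decide_eq_true_eq] using h)⟩

theorem m0 {v j : ℕ} (hv : v < N) (hj : j ≤ 6 * C.length) : (((0, v), j) : Lb) ∈ vs C N := by
  rw [mem_vs]
  refine ⟨by norm_num, hv, Or.inl ⟨rfl, by simp only; omega⟩⟩

theorem m1 {v j : ℕ} (hv : v < N) (hj : j < 6 * C.length) : (((1, v), j) : Lb) ∈ vs C N := by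
  rw [mem_vs]
  refine ⟨by norm_num, hv, Or.inr (Or.inl ⟨rfl, hj⟩)⟩

theorem m2 {v j : ℕ} (hv : v < N) (hj : j < 3 * C.length) : (((2, v), j) : Lb) ∈ vs C N := by
  rw [mem_vs]
  refine ⟨by norm_num, hv, Or.inr (Or.inr ⟨by norm_num, hj⟩)⟩

theorem m3 {v j : ℕ} (hv : v < N) (hj : j < 3 * C.length) : (((3, v), j) : Lb) ∈ vs C N := by
  rw [mem_vs]
  refine ⟨by norm_num, hv, Or.inr (Or.inr ⟨by norm_num, hj⟩)⟩

/-- A triangle is on one side of a matching cut. -/
theorem tri {A : Lb → Prop}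
    (h : ∀ u v w, La (vs C N) (ad C) u v → La (vs C N) (ad C) u w → ¬ (A u ↔ A v) →
      ¬ (A u ↔ A w) → v = w) {x y z : Lb} (hxy : La (vs C N) (ad C) x y)
    (hxz : La (vs C N) (ad C) x z) (hyz : La (vs C N) (ad C) y z) : (A x ↔ A y) := by
  by_contra hne
  by_cases hz : (A x ↔ A z)
  · have hzy : ¬ (A y ↔ A z) := fun h1 => hne (hz.trans h1.symm)
    exact hxz.ne (h y x z hxy.symm hyz (fun h1 => hne h1.symm) hzy)
  · exact hyz.ne (h x y z hxy hxz hne hz)

theorem mono {A : Lb → Prop}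
    (h : ∀ u v w, La (vs C N) (ad C) u v → La (vs C N) (ad C) u w → ¬ (A u ↔ A v) →
      ¬ (A u ↔ A w) → v = w) {v : ℕ} (hv : v < N) (a : Lb) (ha : a ∈ vs C N) (hav : a.1.2 = v) :
    (A a ↔ A ((0, v), 0)) := by
  have e01 : ∀ j < 6 * C.length, La (vs C N) (ad C) ((0, v), j) ((0, v), j + 1) := fun j hj =>
    la_of (m0 hv hj.le) (m0 hv hj) (by simp) (mnb0.2 rfl)
  have e10 : ∀ j < 6 * C.length, La (vs C N) (ad C) ((1, v), j) ((0, v), j) := fun j hj =>
    la_of (m1 hv hj) (m0 hv hj.le) (by simp) (mnb1.2 (Or.inl rfl))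
  have e11 : ∀ j < 6 * C.length, La (vs C N) (ad C) ((1, v), j) ((0, v), j + 1) := fun j hj =>
    la_of (m1 hv hj) (m0 hv hj) (by simp) (mnb1.2 (Or.inr rfl))
  have h0 : ∀ j ≤ 6 * C.length, (A ((0, v), j) ↔ A ((0, v), 0)) := by
    intro j
    induction j with
    | zero => intro _; exact Iff.rfl
    | succ j ih =>
      intro hj
      exact (tri h (e01 j hj) (e10 j hj).symm (e11 j hj).symm).symm.trans (ih (by omega))
  have h1 : ∀ j < 6 * C.length, (A ((1, v), j) ↔ A ((0, v), 0)) := fun j hj =>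
    (tri h (e10 j hj) (e11 j hj) (e01 j hj)).trans (h0 j hj.le)
  have e2 : ∀ k < 3 * C.length, La (vs C N) (ad C) ((2, v), k) ((1, v), 2 * k) := fun k hk =>
    la_of (m2 hv hk) (m1 hv (by omega)) (by simp) (mnb2.2 (Or.inl rfl))
  have e3 : ∀ k < 3 * C.length, La (vs C N) (ad C) ((3, v), k) ((1, v), 2 * k) := fun k hk =>
    la_of (m3 hv hk) (m1 hv (by omega)) (by simp) (mnb3.2 (Or.inl rfl))
  have e4 : ∀ k < 3 * C.length, La (vs C N) (ad C) ((3, v), k) ((2, v), k) := fun k hk =>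
    la_of (m3 hv hk) (m2 hv hk) (by simp) (mnb3.2 (Or.inr rfl))
  have hk := mem_vs.1 ha
  obtain ⟨⟨k, v'⟩, j⟩ := a
  simp only at hav hk
  subst hav
  obtain ⟨hk, -, hj⟩ := hk
  interval_cases k
  · exact h0 j (by omega)
  · exact h1 j (by omega)
  · have hj' : j < 3 * C.length := by omega
    exact (tri h (e2 j hj') (e4 j hj').symm (e3 j hj').symm).trans (h1 _ (by omega))
  · have hj' : j < 3 * C.length := by omega
    exact (tri h (e3 j hj') (e4 j hj') (e2 j hj').symm).trans (h1 _ (by omega))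

theorem cn_eq {i : ℕ} (hi : i < C.length) {r : ℕ} (hr : r < 3) : cn C (3 * i + r) = C[i] := by
  unfold cn
  have : (3 * i + r) / 3 = i := by omega
  rw [this, List.getD_eq_getElem _ _ hi]

theorem rsat_of_mcut (hC : COk C N) (h : HasMatchingCut (labGraph (vs C N) (ad C)).graph) :
    RSat C := by
  classical
  rw [mcut_lab (nodup_vs C N)] at h
  obtain ⟨A, ⟨a, ha, hAa⟩, ⟨b, hb, hAb⟩, h⟩ := h
  obtain ⟨hN, hlt, hmem⟩ := hC
  set τ : ℕ → Bool := fun v => decide (A ((0, v), 0)) with hτ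
  have hR : ∀ c ∈ C, τ c.1 = τ c.2.1 ∨ τ c.1 = τ c.2.2 := by
    intro c hc
    obtain ⟨h1, h2, h3⟩ := hlt c hc
    obtain ⟨i, hi, rfl⟩ := List.getElem_of_mem hc
    by_contra hne
    push Not at hne
    obtain ⟨n1, n2⟩ := hne
    have d0 : (((2, C[i].1), 3 * i) : Lb) ∈ vs C N := m2 h1 (by omega)
    have d1 : (((2, C[i].2.1), 3 * i + 1) : Lb) ∈ vs C N := m2 h2 (by omega)
    have d2 : (((2, C[i].2.2), 3 * i + 2) : Lb) ∈ vs C N := m2 h3 (by omega)
    have E1 : La (vs C N) (ad C) ((2, C[i].2.1), 3 * i + 1) ((2, C[i].1), 3 * i) := by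
      refine la_of d1 d0 (by simp) (mnb2.2 (Or.inr ⟨Or.inl ⟨by omega, ?_⟩, ?_⟩))
      · rw [cn_eq hi (by norm_num)]
      · rw [cn_eq hi (by norm_num)]
        congr 1
        omega
    have E2 : La (vs C N) (ad C) ((2, C[i].2.2), 3 * i + 2) ((2, C[i].1), 3 * i) := by
      refine la_of d2 d0 (by simp) (mnb2.2 (Or.inr ⟨Or.inr ⟨by omega, ?_⟩, ?_⟩))
      · rw [cn_eq hi (by norm_num)]
      · rw [cn_eq hi (by norm_num)]
        congr 1
        omega
    have c0 := mono h h1 _ d0 rfl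
    have c1 := mono h h2 _ d1 rfl
    have c2 := mono h h3 _ d2 rfl
    have key := h _ _ _ E1.symm E2.symm
      (fun hh => n1 (by simp only [hτ]; exact decide_eq_decide.2 (c0.symm.trans (hh.trans c1))))
      (fun hh => n2 (by simp only [hτ]; exact decide_eq_decide.2 (c0.symm.trans (hh.trans c2))))
    have := congrArg Prod.snd key
    simp at this
  refine ⟨τ, fun h01 => ?_, hR⟩
  have hall : ∀ v < N, τ v = τ 0 := by
    intro v hv
    rcases hR _ (hmem v hv) with h1 | h1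
    · exact h1
    · exact h1.trans h01.symm
  have hA : ∀ t ∈ vs C N, (A t ↔ A ((0, 0), 0)) := by
    intro t ht
    have hv := (mem_vs.1 ht).2.1
    exact (mono h hv t ht rfl).trans (decide_eq_decide.1 (hall _ hv))
  exact hAb ((hA b hb).2 ((hA a ha).1 hAa))

theorem mcut_of_rsat (hC : COk C N) (h : RSat C) :
    HasMatchingCut (labGraph (vs C N) (ad C)).graph := by
  classical
  rw [mcut_lab (nodup_vs C N)]
  obtain ⟨τ, h01, hR⟩ := h
  obtain ⟨hN, hlt, hmem⟩ := hC
  have hne : ∀ b : Bool, ∃ a ∈ vs C N, (τ a.1.2 = b) := by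
    intro b
    by_cases h0 : τ 0 = b
    · exact ⟨((0, 0), 0), m0 (by omega) (by omega), h0⟩
    · refine ⟨((0, 1), 0), m0 (by omega) (by omega), ?_⟩
      change τ 1 = b
      revert h0 h01
      cases τ 0 <;> cases τ 1 <;> cases b <;> simp
  refine ⟨fun a => τ a.1.2 = true, hne true, ?_, ?_⟩
  · obtain ⟨a, ha, hb⟩ := hne false
    refine ⟨a, ha, ?_⟩
    change ¬ (τ a.1.2 = true)
    rw [hb]
    simp
  · have hcut : ∀ u v, La (vs C N) (ad C) u v → ¬ (τ u.1.2 = true ↔ τ v.1.2 = true) →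
        u.1.1 = 2 ∧ ((u.2 % 3 ≠ 0 ∧ v = ((2, (cn C u.2).1), 3 * (u.2 / 3))) ∨
          (u.2 % 3 = 0 ∧ u.1.2 = (cn C u.2).1 ∧ (v = ((2, (cn C u.2).2.1), u.2 + 1) ∨
          v = ((2, (cn C u.2).2.2), u.2 + 2)))) := by
      rintro ⟨⟨k, x⟩, j⟩ v huv hcut
      have hk : k < 4 := (mem_vs.1 huv.1).1
      interval_cases k
      · exfalso
        rcases nZ huv with rfl | ⟨-, rfl⟩ | rfl | ⟨-, rfl⟩ <;> exact hcut Iff.rfl
      · exfalso
        rcases nB huv with rfl | rfl | ⟨k, -, rfl | rfl⟩ <;> exact hcut Iff.rfl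
      · rcases nP huv with rfl | rfl | h1 | h1
        · exact absurd Iff.rfl hcut
        · exact absurd Iff.rfl hcut
        · exact ⟨rfl, Or.inl h1⟩
        · exact ⟨rfl, Or.inr h1⟩
      · exfalso
        rcases nQ huv with rfl | rfl <;> exact hcut Iff.rfl
    intro u v w huv huw h1 h2
    obtain ⟨hu, h3⟩ := hcut u v huv h1
    obtain ⟨-, h4⟩ := hcut u w huw h2
    rcases h3 with ⟨h5, h6⟩ | ⟨h5, h6, h7⟩
    · rcases h4 with ⟨-, h8⟩ | ⟨h8, -⟩
      · rw [h6, h8]
      · exact absurd h8 h5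
    · rcases h4 with ⟨h8, -⟩ | ⟨-, -, h8⟩
      · exact absurd h5 h8
      · have hj : u.2 / 3 < C.length := by
          have h9 := (mem_vs.1 huv.1).2.2
          rw [hu] at h9
          omega
        have hc : cn C u.2 ∈ C := by
          unfold cn
          rw [List.getD_eq_getElem _ _ hj]
          exact List.getElem_mem _
        have hR' := hR _ hc
        rw [← h6] at hR'
        rcases h7 with h7 | h7 <;> rcases h8 with h8 | h8
        · rw [h7, h8]
        · exfalso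
          rw [h7] at h1
          rw [h8] at h2
          simp only at h1 h2
          rcases hR' with h9 | h9
          · exact h1 (by rw [h9])
          · exact h2 (by rw [h9])
        · exfalso
          rw [h7] at h1
          rw [h8] at h2
          simp only at h1 h2
          rcases hR' with h9 | h9
          · exact h2 (by rw [h9])
          · exact h1 (by rw [h9])
        · rw [h7, h8]

end

/-! ### The constraints of a formula -/

/-- the variable of a literal -/
def lt (l : Lit ℕ) : ℕ := 2 + 2 * l.2 + (if l.1 = true then 1 else 0)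

/-- the constraints of a formula -/
def cons (φ : List (Lit ℕ × Lit ℕ × Lit ℕ)) : Con :=
  φ.zipIdx.flatMap (fun p => [(0, lt p.1.1, 2 + 6 * φ.length + p.2),
    (2 + 6 * φ.length + p.2, lt p.1.2.1, lt p.1.2.2)]) ++
  ((List.range (3 * φ.length)).flatMap (fun i => [(0, 2 + 2 * i, 3 + 2 * i),
    (1, 2 + 2 * i, 3 + 2 * i)]) ++
  (List.range (2 + 7 * φ.length)).map (fun v => (v, 0, 1)))

theorem cons_ok {φ : List (Lit ℕ × Lit ℕ × Lit ℕ)} (hb : Bounded3 φ) :
    COk (cons φ) (2 + 7 * φ.length) := by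
  refine ⟨by omega, fun c hc => ?_, fun v hv => ?_⟩
  · unfold cons at hc
    simp only [List.mem_append, List.mem_flatMap, List.mem_map, List.mem_range, List.mem_cons,
      List.not_mem_nil, or_false] at hc
    rcases hc with ⟨⟨d, j⟩, hd, hc⟩ | ⟨i, hi, hc⟩ | ⟨v, hv, rfl⟩
    · rw [List.mem_zipIdx_iff_getElem?] at hd
      simp only at hd hc
      have hj : j < φ.length := (List.getElem?_eq_some_iff.1 hd).1
      obtain ⟨b1, b2, b3⟩ := hb d (List.mem_of_getElem? hd)
      have hl : ∀ l : Lit ℕ, l.2 < 3 * φ.length → lt l < 2 + 7 * φ.length := by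
        intro l hl
        unfold lt
        split_ifs <;> omega
      rcases hc with rfl | rfl
      · exact ⟨by simp only; omega, hl _ b1, by simp only; omega⟩
      · exact ⟨by simp only; omega, hl _ b2, hl _ b3⟩
    · rcases hc with rfl | rfl <;> refine ⟨?_, ?_, ?_⟩ <;> simp only <;> omega
    · exact ⟨hv, by simp only; omega, by simp only; omega⟩
  · unfold cons
    rw [List.mem_append, List.mem_append]
    exact Or.inr (Or.inr (List.mem_map.2 ⟨v, List.mem_range.2 hv, rfl⟩))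

theorem b1 : ∀ T F a u b c : Bool, T ≠ F → (T = a ∨ T = u) → (u = b ∨ u = c) →
    a = T ∨ b = T ∨ c = T := by decide

theorem b2 : ∀ T F x y : Bool, T ≠ F → (T = x ∨ T = y) → (F = x ∨ F = y) → x ≠ y := by decide

theorem sat_of_rsat {φ : List (Lit ℕ × Lit ℕ × Lit ℕ)} (hb : Bounded3 φ) (h : RSat (cons φ)) :
    SAT3 φ := by
  obtain ⟨τ, h01, h⟩ := h
  refine ⟨fun i => decide (τ (3 + 2 * i) = τ 0), fun c hc => ?_⟩
  obtain ⟨j, hj⟩ := List.getElem?_of_mem hc
  obtain ⟨l1, l2, l3⟩ := hb c hc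
  have hm : ∀ t ∈ [(0, lt c.1, 2 + 6 * φ.length + j),
      (2 + 6 * φ.length + j, lt c.2.1, lt c.2.2)], t ∈ cons φ := by
    intro t ht
    unfold cons
    rw [List.mem_append, List.mem_flatMap]
    exact Or.inl ⟨(c, j), List.mem_zipIdx_iff_getElem?.2 hj, ht⟩
  have r1 := h _ (hm _ List.mem_cons_self)
  have r2 := h _ (hm _ (List.mem_cons_of_mem _ List.mem_cons_self))
  have key : ∀ l : Lit ℕ, l.2 < 3 * φ.length → τ (lt l) = τ 0 →
      decide (τ (3 + 2 * l.2) = τ 0) = l.1 := by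
    intro l hl hτ
    have hm2 : ∀ t ∈ [(0, 2 + 2 * l.2, 3 + 2 * l.2), (1, 2 + 2 * l.2, 3 + 2 * l.2)],
        t ∈ cons φ := by
      intro t ht
      unfold cons
      rw [List.mem_append, List.mem_append]
      exact Or.inr (Or.inl (List.mem_flatMap.2 ⟨l.2, List.mem_range.2 hl, ht⟩))
    have s1 := h _ (hm2 _ List.mem_cons_self)
    have s2 := h _ (hm2 _ (List.mem_cons_of_mem _ List.mem_cons_self))
    have s3 := b2 _ _ _ _ h01 s1 s2
    obtain ⟨b, v⟩ := l
    unfold lt at hτ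
    simp only at hτ s3 ⊢
    cases b
    · simp only [Bool.false_eq_true, if_false, add_zero] at hτ
      rw [hτ] at s3
      rw [decide_eq_false_iff_not]
      exact fun h => s3 h.symm
    · simp only [if_true] at hτ
      rw [decide_eq_true_eq, ← hτ]
      congr 1
      omega
  rcases b1 _ _ _ _ _ _ h01 r1 r2 with h1 | h1 | h1
  · exact Or.inl (key _ l1 h1)
  · exact Or.inr (Or.inl (key _ l2 h1))
  · exact Or.inr (Or.inr (key _ l3 h1))

theorem rsat_of_sat {φ : List (Lit ℕ × Lit ℕ × Lit ℕ)} (hb : Bounded3 φ) (h : SAT3 φ) :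
    RSat (cons φ) := by
  obtain ⟨σ, hσ⟩ := h
  -- the values of the auxiliary variables
  let z : ℕ → Bool := fun j => match φ[j]? with
    | some c => (σ c.2.1.2 == c.2.1.1) || (σ c.2.2.2 == c.2.2.1)
    | none => false
  let τ : ℕ → Bool := fun v => if v = 0 then true else if v = 1 then false
    else if v < 2 + 6 * φ.length then (if (v - 2) % 2 = 1 then σ ((v - 2) / 2) else !(σ ((v - 2) / 2)))
    else z (v - (2 + 6 * φ.length))
  have t0 : τ 0 = true := rfl
  have t1 : τ 1 = false := rfl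
  have tl : ∀ l : Lit ℕ, l.2 < 3 * φ.length → τ (lt l) = (σ l.2 == l.1) := by
    rintro ⟨b, v⟩ hv
    simp only at hv
    unfold lt
    cases b
    · simp only [Bool.false_eq_true, if_false, add_zero]
      have e1 : ¬ (2 + 2 * v = 0) := by omega
      have e2 : ¬ (2 + 2 * v = 1) := by omega
      have e3 : 2 + 2 * v < 2 + 6 * φ.length := by omega
      have e4 : ¬ ((2 + 2 * v - 2) % 2 = 1) := by omega
      have e5 : (2 + 2 * v - 2) / 2 = v := by omega
      simp only [τ, if_neg e1, if_neg e2, if_pos e3, if_neg e4, e5]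
      cases σ v <;> rfl
    · simp only [if_true]
      have e1 : ¬ (2 + 2 * v + 1 = 0) := by omega
      have e2 : ¬ (2 + 2 * v + 1 = 1) := by omega
      have e3 : 2 + 2 * v + 1 < 2 + 6 * φ.length := by omega
      have e4 : (2 + 2 * v + 1 - 2) % 2 = 1 := by omega
      have e5 : (2 + 2 * v + 1 - 2) / 2 = v := by omega
      simp only [τ, if_neg e1, if_neg e2, if_pos e3, if_pos e4, e5]
      cases σ v <;> rfl
  have tu : ∀ j, τ (2 + 6 * φ.length + j) = z j := by
    intro j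
    have e1 : ¬ (2 + 6 * φ.length + j = 0) := by omega
    have e2 : ¬ (2 + 6 * φ.length + j = 1) := by omega
    have e3 : ¬ (2 + 6 * φ.length + j < 2 + 6 * φ.length) := by omega
    have e4 : 2 + 6 * φ.length + j - (2 + 6 * φ.length) = j := by omega
    simp only [τ, if_neg e1, if_neg e2, if_neg e3, e4]
  refine ⟨τ, by rw [t0, t1]; simp, fun c hc => ?_⟩
  unfold cons at hc
  simp only [List.mem_append, List.mem_flatMap, List.mem_map, List.mem_range, List.mem_cons,
    List.not_mem_nil, or_false] at hc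
  rcases hc with ⟨⟨d, j⟩, hd, hc⟩ | ⟨i, hi, hc⟩ | ⟨v, hv, rfl⟩
  · rw [List.mem_zipIdx_iff_getElem?] at hd
    simp only at hd hc
    obtain ⟨c1, c2, c3⟩ := hb d (List.mem_of_getElem? hd)
    have hz : z j = ((σ d.2.1.2 == d.2.1.1) || (σ d.2.2.2 == d.2.2.1)) := by
      simp only [z, hd]
    have hs : (σ d.1.2 == d.1.1) = true ∨ (σ d.2.1.2 == d.2.1.1) = true ∨
        (σ d.2.2.2 == d.2.2.1) = true := by
      simpa only [beq_iff_eq] using hσ d (List.mem_of_getElem? hd)
    rcases hc with rfl | rfl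
    · simp only [t0, tl _ c1, tu, hz]
      revert hs
      cases (σ d.1.2 == d.1.1) <;> cases (σ d.2.1.2 == d.2.1.1) <;>
        cases (σ d.2.2.2 == d.2.2.1) <;> simp
    · simp only [tl _ c2, tl _ c3, tu, hz]
      cases (σ d.2.1.2 == d.2.1.1) <;> cases (σ d.2.2.2 == d.2.2.1) <;> simp
  · have e1 := tl (false, i) hi
    have e2 := tl (true, i) hi
    have f1 : lt (false, i) = 2 + 2 * i := by simp [lt]
    have f2 : lt (true, i) = 3 + 2 * i := by simp only [lt, if_true]; omega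
    rw [f1] at e1
    rw [f2] at e2
    rcases hc with rfl | rfl
    · simp only [t0, e1, e2]
      cases σ i <;> simp
    · simp only [t1, e1, e2]
      cases σ i <;> simp
  · simp only [t0, t1]
    cases τ v <;> simp

/-! ### The reduction -/

/-- the graph of a formula -/
noncomputable def red (φ : List (Lit ℕ × Lit ℕ × Lit ℕ)) : FinGraph :=
  labGraph (vs (cons φ) (2 + 7 * φ.length)) (ad (cons φ))

theorem cons_poly : Poly cons := by
  have h1 : Poly (fun φ : List (Lit ℕ × Lit ℕ × Lit ℕ) => List.range (3 * φ.length)) :=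
    UPoly.range (UPoly.mul (UPoly.const 3) (UPoly.length Poly.id))
  have h2 : Poly (fun φ : List (Lit ℕ × Lit ℕ × Lit ℕ) => List.range (2 + 7 * φ.length)) :=
    UPoly.range (UPoly.add (UPoly.const 2) (UPoly.mul (UPoly.const 7) (UPoly.length Poly.id)))
  unfold cons lt
  refine Poly.append (by fun_prop) (Poly.append ?_ ?_)
  · exact Poly.flatMap (F := fun _ i => [(0, 2 + 2 * i, 3 + 2 * i), (1, 2 + 2 * i, 3 + 2 * i)]) h1
      (by fun_prop)
  · exact NPC.Poly.map (F := fun _ v => (v, 0, 1)) h2 (by fun_prop)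

theorem vs_poly : Poly (fun φ : List (Lit ℕ × Lit ℕ × Lit ℕ) => vs (cons φ) (2 + 7 * φ.length)) := by
  have h2 : Poly (fun φ : List (Lit ℕ × Lit ℕ × Lit ℕ) => List.range (2 + 7 * φ.length)) :=
    UPoly.range (UPoly.add (UPoly.const 2) (UPoly.mul (UPoly.const 7) (UPoly.length Poly.id)))
  have h3 : Poly (fun φ : List (Lit ℕ × Lit ℕ × Lit ℕ) => List.range (6 * (cons φ).length + 1)) :=
    UPoly.range (UPoly.add (UPoly.mul (UPoly.const 6) (UPoly.length cons_poly)) (UPoly.const 1))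
  have h4 := cons_poly
  unfold vs
  refine Poly.filter (p := fun (φ : List (Lit ℕ × Lit ℕ × Lit ℕ)) (l : Lb) => decide (l.1.1 = 0) || ((decide (l.1.1 = 1) &&
    decide (l.2 < 6 * (cons φ).length)) || decide (l.2 < 3 * (cons φ).length))) ?_ ?_
  · exact R671.poly_product (R671.poly_product (NPC.Poly.const _) h2) h3
  · have h5 : Poly (fun x : List (Lit ℕ × Lit ℕ × Lit ℕ) × ((ℕ × ℕ) × ℕ) => (cons x.1)) :=
      h4.comp (Poly.fst Poly.id)
    fun_prop

theorem nb_poly : Poly (fun p : Con × Lb => nb p.1 p.2) := by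
  unfold nb cn
  fun_prop

theorem red_poly : Poly red := by
  unfold red
  refine poly_labGraph (vs := fun φ => vs (cons φ) (2 + 7 * φ.length)) (ad := fun φ => ad (cons φ))
    vs_poly ?_
  unfold ad
  have h : Poly (fun p : (List (Lit ℕ × Lit ℕ × Lit ℕ) × Lb) × Lb => nb (cons p.1.1) p.1.2) :=
    nb_poly.comp (Poly.pair (cons_poly.comp (Poly.fst (Poly.fst Poly.id))) (Poly.snd (Poly.fst Poly.id)))
  exact (Poly.decide_mem (Poly.snd Poly.id) h).congr fun p =>
    Bool.eq_iff_iff.2 (by simp only [decide_eq_true_eq])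

theorem hard_mcut : HardPr (fun G : FinGraph => S2222.Free G.graph)
    (fun G : FinGraph => HasMatchingCut G.graph) := by
  refine hardPr_SAT3b.trans red_poly ?_ ?_
  · rintro φ -
    exact free_graph _ _
  · rintro φ ⟨-, hb, -⟩
    exact ⟨fun h => mcut_of_rsat (cons_ok hb) (rsat_of_sat hb h),
      fun h => sat_of_rsat hb (rsat_of_mcut (cons_ok hb) h)⟩

end Pool.Agent.Q324.MCut
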