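import Pool.Agent.Q324.MCut.Basic
import Pool.Agent.Q324.Base.Gr

/-!
# Membership in `NP`
-/

namespace Pool.Agent.Q324.MCut

open Pool.Agent.NPC Pool.Agent.H692R2 Pool.Agent.Q324.Base

attribute [fun_prop] ent_poly' rg_poly'
attribute [local irreducible] ent rg

/-- all tuples of vertices of length `k` -/
def tup (M : Mx) : ℕ → List (List ℕ)
  | 0 => [[]]
  | k + 1 => (tup M k).flatMap (fun l => (rg M).map (fun i => i :: l))

theorem tup_poly (k : ℕ) : Poly (fun M : Mx => tup M k) := by
  induction k with
  | zero => exact NPC.Poly.const _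
  | succ k ih =>
    have h : Poly (fun p : Mx × List ℕ => (rg p.1).map (fun i => i :: p.2)) := by fun_prop
    exact Poly.flatMap (F := fun (M : Mx) (l : List ℕ) => (rg M).map (fun i => i :: l)) ih h

theorem mem_tup {M : Mx} : ∀ {k : ℕ} {l : List ℕ}, l ∈ tup M k ↔
    l.length = k ∧ ∀ i ∈ l, i < M.length := by
  intro k
  induction k with
  | zero =>
    intro l
    simp only [tup, List.mem_singleton, List.length_eq_zero_iff]
    constructor
    · rintro rfl
      exact ⟨rfl, fun i hi => absurd hi (by simp)⟩
    · exact fun h => h.1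
  | succ k ih =>
    intro l
    simp only [tup, List.mem_flatMap, List.mem_map, mem_rg]
    constructor
    · rintro ⟨l', hl', i, hi, rfl⟩
      obtain ⟨h1, h2⟩ := ih.1 hl'
      refine ⟨by simp [h1], fun j hj => ?_⟩
      rcases List.mem_cons.1 hj with rfl | hj
      · exact hi
      · exact h2 j hj
    · rintro ⟨h1, h2⟩
      cases l with
      | nil => simp at h1
      | cons i l =>
        refine ⟨l, ih.2 ⟨by simpa using h1, fun j hj => h2 j (List.mem_cons_of_mem _ hj)⟩, i,
          h2 i List.mem_cons_self, rfl⟩

/-- the positions of the edges of `S2222` -/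
def pr : List (ℕ × ℕ) := [(0, 1), (0, 2), (0, 3), (0, 4), (1, 5), (2, 6), (3, 7), (4, 8)]

/-- the test for a copy of `S2222` -/
def hit (M : Mx) (l : List ℕ) : Bool :=
  (List.range 9).all (fun i => (List.range 9).all (fun j =>
    decide (i = j) || !decide (l.getD i 0 = l.getD j 0))) &&
  pr.all (fun p => ent M (l.getD p.1 0) (l.getD p.2 0))

theorem hit_poly : Poly (fun p : Mx × List ℕ => hit p.1 p.2) := by
  unfold hit pr
  have h : Poly (fun _ : Mx × List ℕ => List.range 9) := NPC.Poly.const _
  refine NPC.Poly.and ?_ (by fun_prop)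
  refine Poly.all (p := fun (x : Mx × List ℕ) (i : ℕ) => (List.range 9).all (fun j =>
    decide (i = j) || !decide (x.2.getD i 0 = x.2.getD j 0))) h ?_
  refine Poly.all (p := fun (x : (Mx × List ℕ) × ℕ) (j : ℕ) =>
    decide (x.2 = j) || !decide (x.1.2.getD x.2 0 = x.1.2.getD j 0)) (NPC.Poly.const _) ?_
  fun_prop

/-- the test for freeness -/
def free (M : Mx) : Bool := (tup M 9).all (fun l => !(hit M l))

theorem free_poly : Poly free := by
  unfold free
  exact Poly.all (p := fun (M : Mx) (l : List ℕ) => !(hit M l)) (tup_poly 9)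
    (NPC.Poly.not hit_poly)

theorem free_test (G : FinGraph) : free G.matrix = true ↔ S2222.Free G.graph := by
  rw [free_iff]
  unfold free
  simp only [List.all_eq_true, mem_tup, length_matrix, Bool.not_eq_true']
  constructor
  · rintro h f ⟨hf, hp⟩
    have h1 := h (List.ofFn fun i => (f i : ℕ)) ⟨by simp, fun i hi => by
      rw [List.mem_ofFn] at hi
      obtain ⟨j, rfl⟩ := hi
      exact (f j).2⟩
    rw [Bool.eq_false_iff] at h1
    apply h1
    unfold hit
    simp only [Bool.and_eq_true, List.all_eq_true, List.mem_range, Bool.or_eq_true,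
      decide_eq_true_eq, Bool.not_eq_true', decide_eq_false_iff_not]
    have hg : ∀ i : Fin 9, (List.ofFn fun i => (f i : ℕ)).getD i 0 = f i := fun i => getD_ofFn _ _ i
    refine ⟨fun i hi j hj => ?_, ?_⟩
    · by_cases hij : i = j
      · exact Or.inl hij
      · right
        have e1 := hg ⟨i, hi⟩
        have e2 := hg ⟨j, hj⟩
        simp only at e1 e2
        rw [e1, e2]
        intro e
        have := hf (Fin.ext e)
        exact hij (congrArg Fin.val this)
    · have key : ∀ p ∈ prs, ent G.matrix ((List.ofFn fun i => (f i : ℕ)).getD p.1 0)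
          ((List.ofFn fun i => (f i : ℕ)).getD p.2 0) = true := by
        intro p hp'
        rw [hg, hg, ent_matrix]
        exact hp p hp'
      intro p hp'
      have hpp : ∃ q ∈ prs, (q.1 : ℕ) = p.1 ∧ (q.2 : ℕ) = p.2 := by
        revert p
        decide
      obtain ⟨q, hq, e1, e2⟩ := hpp
      rw [← e1, ← e2]
      exact key q hq
  · intro h l hl
    rw [Bool.eq_false_iff]
    intro hh
    unfold hit at hh
    simp only [Bool.and_eq_true, List.all_eq_true, List.mem_range, Bool.or_eq_true,
      decide_eq_true_eq, Bool.not_eq_true', decide_eq_false_iff_not] at hh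
    obtain ⟨h1, h2⟩ := hh
    have hlt : ∀ i : Fin 9, l.getD i 0 < G.n := by
      intro i
      have : (i : ℕ) < l.length := by rw [hl.1]; exact i.2
      rw [List.getD_eq_getElem _ _ this]
      exact hl.2 _ (List.getElem_mem this)
    refine h (fun i => ⟨l.getD i 0, hlt i⟩) ⟨?_, ?_⟩
    · intro i j hij
      have hij' : l.getD i 0 = l.getD j 0 := congrArg Fin.val hij
      rcases h1 i i.2 j j.2 with e | e
      · exact Fin.ext e
      · exact absurd hij' e
    · intro p hp
      have hpp : ((p.1 : ℕ), (p.2 : ℕ)) ∈ pr := by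
        revert p
        decide
      exact (ent_matrix G _ _).1 (h2 _ hpp)

/-- the verifier -/
def ver (x : Mx × List Bool) : Bool :=
  free x.1 && (((rg x.1).any (fun i => x.2.getD i false) &&
    (rg x.1).any (fun i => !(x.2.getD i false))) &&
  (rg x.1).all (fun u => (rg x.1).all (fun v => (rg x.1).all (fun w =>
    !(ent x.1 u v && (ent x.1 u w && ((x.2.getD u false ^^ x.2.getD v false) &&
      (x.2.getD u false ^^ x.2.getD w false)))) || decide (v = w)))))

theorem free_poly' {α : Type} [TEnc α] {M : α → Mx} (h1 : Poly M) :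
    Poly (fun a => free (M a)) := free_poly.comp h1

attribute [fun_prop] free_poly'
attribute [local irreducible] free

theorem ver_poly : Poly ver := by
  unfold ver
  fun_prop

theorem inNP_mcut : InNPP (fun G : FinGraph => S2222.Free G.graph ∧ HasMatchingCut G.graph) := by
  refine inNPP_finGraph ver_poly (Polynomial.X * (Polynomial.C 4) + 1) ?_
  intro G
  unfold HasMatchingCut
  constructor
  · rintro ⟨hfree, A, ⟨a, ha⟩, ⟨b, hb⟩, h⟩
    classical
    refine ⟨List.ofFn (fun i : Fin G.n => decide (i ∈ A)), ?_, ?_⟩
    · have h1 : G.n < sz G.matrix := by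
        have := length_lt_sz G.matrix
        rwa [length_matrix] at this
      have h3 : sz (List.ofFn (fun i : Fin G.n => decide (i ∈ A))) ≤
          (List.ofFn (fun i : Fin G.n => decide (i ∈ A))).length * (3 + 1) + 1 := by
        refine sz_le_length_mul _ _ ?_
        intro a _
        exact sz_bool_le a
      rw [List.length_ofFn] at h3
      simp only [Polynomial.eval_add, Polynomial.eval_mul, Polynomial.eval_X, Polynomial.eval_C,
        Polynomial.eval_one]
      omega
    · unfold ver
      have hg : ∀ i : Fin G.n, (List.ofFn (fun i : Fin G.n => decide (i ∈ A))).getD i false =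
          decide (i ∈ A) := fun i => getD_ofFn _ _ i
      simp only [Bool.and_eq_true, List.all_eq_true, List.any_eq_true, mem_rg, length_matrix,
        Bool.or_eq_true, decide_eq_true_eq, Bool.not_eq_true']
      refine ⟨(free_test G).2 hfree, ⟨⟨a, a.2, ?_⟩, b, b.2, ?_⟩, ?_⟩
      · rw [hg]; exact decide_eq_true ha
      · rw [hg]; exact decide_eq_false hb
      · intro u hu v hv w hw
        by_cases hvw : v = w
        · exact Or.inr hvw
        left
        rw [Bool.eq_false_iff]
        intro hh
        simp only [Bool.and_eq_true] at hh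
        obtain ⟨h1, h2, h3, h4⟩ := hh
        have e1 := hg ⟨u, hu⟩
        have e2 := hg ⟨v, hv⟩
        have e3 := hg ⟨w, hw⟩
        simp only at e1 e2 e3
        rw [e1, e2] at h3
        rw [e1, e3] at h4
        refine hvw (congrArg Fin.val (h ⟨u, hu⟩ ⟨v, hv⟩ ⟨w, hw⟩ ((ent_matrix G ⟨u, hu⟩ ⟨v, hv⟩).1 h1)
          ((ent_matrix G ⟨u, hu⟩ ⟨w, hw⟩).1 h2) ?_ ?_))
        · intro hiff
          simp [hiff] at h3
        · intro hiff
          simp [hiff] at h4
  · rintro ⟨w, -, hw⟩
    unfold ver at hw
    simp only [Bool.and_eq_true, List.all_eq_true, List.any_eq_true, mem_rg, length_matrix,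
      Bool.or_eq_true, decide_eq_true_eq, Bool.not_eq_true'] at hw
    obtain ⟨h1, ⟨⟨a, ha, ha'⟩, b, hb, hb'⟩, h2⟩ := hw
    refine ⟨(free_test G).1 h1, {i | w.getD i false = true}, ⟨⟨a, ha⟩, ha'⟩, ⟨⟨b, hb⟩, ?_⟩, ?_⟩
    · simp only [Set.mem_compl_iff, Set.mem_setOf_eq]
      rw [hb']
      simp
    · intro u v x huv hux h3 h4
      rcases h2 u u.2 v v.2 x x.2 with h5 | h5
      · exfalso
        rw [Bool.eq_false_iff] at h5
        apply h5
        simp only [Bool.and_eq_true]
        refine ⟨(ent_matrix G u v).2 huv, (ent_matrix G u x).2 hux, ?_, ?_⟩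
        · simp only [Set.mem_setOf_eq] at h3
          revert h3
          cases w.getD u false <;> cases w.getD v false <;> simp
        · simp only [Set.mem_setOf_eq] at h4
          revert h4
          cases w.getD u false <;> cases w.getD x false <;> simp
      · exact Fin.ext h5

end Pool.Agent.Q324.MCut
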