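import Pool.Agent.Q324.MCut.NP
import Pool.Agent.Q324.Lab.Basic
import Pool.Agent.NPC.Sat2

/-!
# The reduction
-/

namespace Pool.Agent.Q324.MCut

open Pool.Agent.NPC Pool.Agent.H692R2 Pool.Agent.Q324.Lab

/-! ### Graphs given by labels -/

section

variable {Λ : Type} [DecidableEq Λ]

/-- adjacency of labels of the list -/
def La (vs : List Λ) (ad : Λ → Λ → Bool) (a b : Λ) : Prop := a ∈ vs ∧ b ∈ vs ∧ sym ad a b = true

theorem La.symm {vs : List Λ} {ad : Λ → Λ → Bool} {a b : Λ} (h : La vs ad a b) : La vs ad b a := by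
  obtain ⟨h1, h2, h3⟩ := h
  rw [sym_iff] at h3
  refine ⟨h2, h1, ?_⟩
  rw [sym_iff]
  exact ⟨h3.1.symm, h3.2.symm⟩

theorem La.ne {vs : List Λ} {ad : Λ → Λ → Bool} {a b : Λ} (h : La vs ad a b) : a ≠ b := by
  have h3 := h.2.2
  rw [sym_iff] at h3
  exact h3.1

theorem free_lab {vs : List Λ} {ad : Λ → Λ → Bool} (hn : vs.Nodup)
    (h : ∀ f, ¬ Hit (La vs ad) f) : S2222.Free (labGraph vs ad).graph := by
  rw [free_iff]
  rintro f ⟨h1, h2⟩
  refine h (fun i => vs[(f i).1]'(f i).2) ⟨fun i j hij => h1 ?_, fun p hp => ?_⟩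
  · exact Fin.ext ((List.Nodup.getElem_inj_iff hn).1 hij)
  · exact ⟨List.getElem_mem _, List.getElem_mem _, h2 p hp⟩

theorem mcut_lab {vs : List Λ} {ad : Λ → Λ → Bool} (hn : vs.Nodup) :
    HasMatchingCut (labGraph vs ad).graph ↔ ∃ A : Λ → Prop, (∃ a ∈ vs, A a) ∧ (∃ a ∈ vs, ¬ A a) ∧
      ∀ u v w, La vs ad u v → La vs ad u w → ¬ (A u ↔ A v) → ¬ (A u ↔ A w) → v = w := by
  classical
  constructor
  · rintro ⟨A, ⟨a, ha⟩, ⟨b, hb⟩, h⟩
    have hidx : ∀ i : Fin vs.length, ∀ hm : vs[i.1]'i.2 ∈ vs,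
        (⟨vs.idxOf (vs[i.1]'i.2), List.idxOf_lt_length_iff.2 hm⟩ : Fin vs.length) = i := by
      intro i hm
      exact Fin.ext (List.Nodup.idxOf_getElem hn i.1 i.2)
    let A' : Λ → Prop := fun l => ∃ hm : l ∈ vs, (⟨vs.idxOf l, List.idxOf_lt_length_iff.2 hm⟩ :
      Fin vs.length) ∈ A
    have hA' : ∀ l (hm : l ∈ vs), A' l ↔ (⟨vs.idxOf l, List.idxOf_lt_length_iff.2 hm⟩ :
        Fin vs.length) ∈ A := fun l hm => ⟨fun ⟨_, h⟩ => h, fun h => ⟨hm, h⟩⟩
    refine ⟨A', ⟨vs[a.1]'a.2, List.getElem_mem _, ?_⟩, ⟨vs[b.1]'b.2, List.getElem_mem _, ?_⟩, ?_⟩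
    · refine (hA' _ (List.getElem_mem _)).2 ?_
      have e := hidx a (List.getElem_mem _)
      exact Eq.mpr (congrArg (fun t => t ∈ A) e) ha
    · intro hh
      have h2 := (hA' _ (List.getElem_mem _)).1 hh
      have e := hidx b (List.getElem_mem _)
      exact hb (Eq.mp (congrArg (fun t => t ∈ A) e) h2)
    · rintro u v w ⟨hu, hv, huv⟩ ⟨-, hw, huw⟩ h1 h2
      rw [hA' u hu, hA' v hv] at h1
      rw [hA' u hu, hA' w hw] at h2
      have key := h _ _ _ ?_ ?_ h1 h2
      · have h3 := congrArg Fin.val key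
        simp only at h3
        exact (List.idxOf_inj hv).1 h3
      · change sym ad (vs[vs.idxOf u]'(List.idxOf_lt_length_iff.2 hu))
          (vs[vs.idxOf v]'(List.idxOf_lt_length_iff.2 hv)) = true
        rw [List.getElem_idxOf, List.getElem_idxOf]
        exact huv
      · change sym ad (vs[vs.idxOf u]'(List.idxOf_lt_length_iff.2 hu))
          (vs[vs.idxOf w]'(List.idxOf_lt_length_iff.2 hw)) = true
        rw [List.getElem_idxOf, List.getElem_idxOf]
        exact huw
  · rintro ⟨A, ⟨a, ha, ha'⟩, ⟨b, hb, hb'⟩, h⟩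
    obtain ⟨i, hi, rfl⟩ := List.getElem_of_mem ha
    obtain ⟨j, hj, rfl⟩ := List.getElem_of_mem hb
    refine ⟨{i | A (vs[i.1]'i.2)}, ⟨⟨i, hi⟩, ha'⟩, ⟨⟨j, hj⟩, hb'⟩, ?_⟩
    intro u v w huv huw h1 h2
    have h3 := h (vs[u.1]'u.2) (vs[v.1]'v.2) (vs[w.1]'w.2)
      ⟨List.getElem_mem _, List.getElem_mem _, huv⟩ ⟨List.getElem_mem _, List.getElem_mem _, huw⟩
      h1 h2
    exact Fin.ext ((List.Nodup.getElem_inj_iff hn).1 h3)

end

/-! ### The graph of a list of constraints -/

/-- a constraint: the first variable is equal to the second or to the third -/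
abbrev Con : Type := List (ℕ × ℕ × ℕ)

/-- labels: kind, variable, index -/
abbrev Lb : Type := (ℕ × ℕ) × ℕ

/-- the constraint of a port -/
def cn (C : Con) (k : ℕ) : ℕ × ℕ × ℕ := C.getD (k / 3) (0, 0, 0)

/-- half of the neighbours of a vertex -/
def nb (C : Con) (a : Lb) : List Lb :=
  if a.1.1 = 0 then [((0, a.1.2), a.2 + 1)]
  else if a.1.1 = 1 then [((0, a.1.2), a.2), ((0, a.1.2), a.2 + 1)]
  else if a.1.1 = 2 then ((1, a.1.2), 2 * a.2) ::
    (if (a.2 % 3 = 1 ∧ a.1.2 = (cn C a.2).2.1) ∨ (a.2 % 3 = 2 ∧ a.1.2 = (cn C a.2).2.2) then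
      [((2, (cn C a.2).1), 3 * (a.2 / 3))] else [])
  else [((1, a.1.2), 2 * a.2), ((2, a.1.2), a.2)]

/-- the adjacency test -/
def ad (C : Con) (a b : Lb) : Bool := decide (b ∈ nb C a)

/-- the labels -/
def vs (C : Con) (N : ℕ) : List Lb :=
  (((List.range 4) ×ˢ (List.range N)) ×ˢ (List.range (6 * C.length + 1))).filter
    (fun l => decide (l.1.1 = 0) || ((decide (l.1.1 = 1) && decide (l.2 < 6 * C.length)) ||
      decide (l.2 < 3 * C.length)))

theorem mem_vs {C : Con} {N : ℕ} {l : Lb} : l ∈ vs C N ↔ l.1.1 < 4 ∧ l.1.2 < N ∧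
    ((l.1.1 = 0 ∧ l.2 < 6 * C.length + 1) ∨ (l.1.1 = 1 ∧ l.2 < 6 * C.length) ∨
      (1 ≤ l.1.1 ∧ l.2 < 3 * C.length)) := by
  obtain ⟨⟨k, v⟩, j⟩ := l
  unfold vs
  simp only [List.mem_filter, List.mem_product, List.mem_range, Bool.or_eq_true,
    Bool.and_eq_true, decide_eq_true_eq]
  constructor
  · rintro ⟨⟨⟨h1, h2⟩, h3⟩, h4⟩
    refine ⟨h1, h2, ?_⟩
    omega
  · rintro ⟨h1, h2, h3⟩
    refine ⟨⟨⟨h1, h2⟩, ?_⟩, ?_⟩ <;> omega

theorem nodup_vs (C : Con) (N : ℕ) : (vs C N).Nodup :=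
  ((List.nodup_range.product List.nodup_range).product List.nodup_range).filter _

section Nb

variable {C : Con} {N : ℕ}

theorem la_cases {a b : Lb} (h : La (vs C N) (ad C) a b) :
    b ∈ nb C a ∨ a ∈ nb C b := by
  have h3 := h.2.2
  rw [sym_iff] at h3
  simpa only [ad, decide_eq_true_eq] using h3.2

theorem kind_lt {a b : Lb} (h : La (vs C N) (ad C) a b) : b.1.1 < 4 := (mem_vs.1 h.2.1).1

theorem mnb0 {v j : ℕ} {b : Lb} : b ∈ nb C ((0, v), j) ↔ b = ((0, v), j + 1) := by
  simp [nb]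

theorem mnb1 {v j : ℕ} {b : Lb} : b ∈ nb C ((1, v), j) ↔ b = ((0, v), j) ∨ b = ((0, v), j + 1) := by
  simp [nb]

theorem mnb3 {v j : ℕ} {b : Lb} :
    b ∈ nb C ((3, v), j) ↔ b = ((1, v), 2 * j) ∨ b = ((2, v), j) := by
  simp [nb]

theorem mnb2 {v j : ℕ} {b : Lb} : b ∈ nb C ((2, v), j) ↔ b = ((1, v), 2 * j) ∨
    (((j % 3 = 1 ∧ v = (cn C j).2.1) ∨ (j % 3 = 2 ∧ v = (cn C j).2.2)) ∧
      b = ((2, (cn C j).1), 3 * (j / 3))) := by
  have e : nb C ((2, v), j) = ((1, v), 2 * j) ::
      (if (j % 3 = 1 ∧ v = (cn C j).2.1) ∨ (j % 3 = 2 ∧ v = (cn C j).2.2) then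
        [((2, (cn C j).1), 3 * (j / 3))] else []) := by
    simp [nb]
  rw [e, List.mem_cons]
  by_cases h : (j % 3 = 1 ∧ v = (cn C j).2.1) ∨ (j % 3 = 2 ∧ v = (cn C j).2.2)
  · rw [if_pos h, List.mem_singleton]
    exact ⟨fun h' => h'.imp id (fun h'' => ⟨h, h''⟩), fun h' => h'.imp id (fun h'' => h''.2)⟩
  · rw [if_neg h]
    exact ⟨fun h' => h'.imp id (fun h'' => absurd h'' (by simp)),
      fun h' => h'.imp id (fun h'' => absurd h''.1 h)⟩

theorem nZ {v j : ℕ} {b : Lb} (h : La (vs C N) (ad C) ((0, v), j) b) :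
    b = ((0, v), j + 1) ∨ (1 ≤ j ∧ b = ((0, v), j - 1)) ∨ b = ((1, v), j) ∨
      (1 ≤ j ∧ b = ((1, v), j - 1)) := by
  have hk := kind_lt h
  obtain ⟨⟨k, v'⟩, j'⟩ := b
  rcases la_cases h with h | h
  · exact Or.inl (mnb0.1 h)
  · simp only at hk
    interval_cases k
    · rw [mnb0] at h
      simp only [Prod.mk.injEq, true_and] at h
      obtain ⟨rfl, rfl⟩ := h
      simp
    · rw [mnb1] at h
      simp only [Prod.mk.injEq, true_and] at h
      rcases h with ⟨rfl, rfl⟩ | ⟨rfl, rfl⟩ <;> simp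
    · rw [mnb2] at h
      simp at h
    · rw [mnb3] at h
      simp at h

theorem nB {v j : ℕ} {b : Lb} (h : La (vs C N) (ad C) ((1, v), j) b) :
    b = ((0, v), j) ∨ b = ((0, v), j + 1) ∨
      (∃ k, j = 2 * k ∧ (b = ((2, v), k) ∨ b = ((3, v), k))) := by
  have hk := kind_lt h
  obtain ⟨⟨k, v'⟩, j'⟩ := b
  rcases la_cases h with h | h
  · exact (mnb1.1 h).imp id Or.inl
  · simp only at hk
    interval_cases k
    · rw [mnb0] at h
      simp at h
    · rw [mnb1] at h
      simp at h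
    · rw [mnb2] at h
      simp at h
      obtain ⟨rfl, rfl⟩ := h
      exact Or.inr (Or.inr ⟨j', rfl, Or.inl rfl⟩)
    · rw [mnb3] at h
      simp at h
      obtain ⟨rfl, rfl⟩ := h
      exact Or.inr (Or.inr ⟨j', rfl, Or.inr rfl⟩)

theorem nQ {v k : ℕ} {b : Lb} (h : La (vs C N) (ad C) ((3, v), k) b) :
    b = ((1, v), 2 * k) ∨ b = ((2, v), k) := by
  have hk := kind_lt h
  obtain ⟨⟨k', v'⟩, j'⟩ := b
  rcases la_cases h with h | h
  · exact mnb3.1 h
  · simp only at hk
    interval_cases k'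
    · rw [mnb0] at h
      simp at h
    · rw [mnb1] at h
      simp at h
    · rw [mnb2] at h
      simp at h
    · rw [mnb3] at h
      simp at h

theorem nP {v k : ℕ} {b : Lb} (h : La (vs C N) (ad C) ((2, v), k) b) :
    b = ((1, v), 2 * k) ∨ b = ((3, v), k) ∨
      (k % 3 ≠ 0 ∧ b = ((2, (cn C k).1), 3 * (k / 3))) ∨
      (k % 3 = 0 ∧ v = (cn C k).1 ∧ (b = ((2, (cn C k).2.1), k + 1) ∨
        b = ((2, (cn C k).2.2), k + 2))) := by
  have hk := kind_lt h
  obtain ⟨⟨k', v'⟩, j'⟩ := b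
  rcases la_cases h with h | h
  · rw [mnb2] at h
    rcases h with h | ⟨h4, h⟩
    · exact Or.inl h
    · refine Or.inr (Or.inr (Or.inl ⟨?_, h⟩))
      rcases h4 with h4 | h4
      · have := h4.1; omega
      · have := h4.1; omega
  · simp only at hk
    interval_cases k'
    · rw [mnb0] at h
      simp at h
    · rw [mnb1] at h
      simp at h
    · rw [mnb2] at h
      rcases h with h | ⟨h4, h⟩
      · simp at h
      · simp only [Prod.mk.injEq, true_and] at h
        obtain ⟨rfl, hkk⟩ := h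
        refine Or.inr (Or.inr (Or.inr ?_))
        rcases h4 with ⟨h5, h6⟩ | ⟨h5, h6⟩
        · have e : cn C k = cn C j' := by unfold cn; congr 1; omega
          refine ⟨by omega, by rw [e], Or.inl ?_⟩
          rw [e, ← h6]
          congr 1
          omega
        · have e : cn C k = cn C j' := by unfold cn; congr 1; omega
          refine ⟨by omega, by rw [e], Or.inr ?_⟩
          rw [e, ← h6]
          congr 1
          omega
    · rw [mnb3] at h
      simp at h
      obtain ⟨rfl, rfl⟩ := h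
      exact Or.inr (Or.inl rfl)

/-! ### The graph has no subgraph `S2222` -/

theorem no_hit (f : Fin 9 → Lb) : ¬ Hit (La (vs C N) (ad C)) f := by
  intro hf
  have h0 : La (vs C N) (ad C) (f 0) (f 1) := hf.2 (0, 1) (by simp [prs])
  have hk : (f 0).1.1 < 4 := (mem_vs.1 h0.1).1
  rcases e : f 0 with ⟨⟨k, v⟩, j⟩
  rw [e] at hk
  simp only at hk
  interval_cases k
  · by_cases hj : j = 0
    · subst hj
      refine no_centre hf (n1 := ((0, v), 1)) (n2 := ((1, v), 0)) (n3 := ((1, v), 0))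
        (s := ((0, v), 0)) ?_ ?_
      · intro t ht
        rw [e] at ht
        rcases nZ ht with h | ⟨h, -⟩ | h | ⟨h, -⟩
        · exact Or.inl h
        · omega
        · exact Or.inr (Or.inl h)
        · omega
      · intro t ht
        rcases nZ ht with h | ⟨h, -⟩ | h | ⟨h, -⟩
        · exact Or.inr (Or.inl h)
        · omega
        · exact Or.inr (Or.inr (Or.inl h))
        · omega
    by_cases hp : j % 2 = 0
    · refine no_centre hf (n1 := ((0, v), j + 1)) (n2 := ((0, v), j - 1)) (n3 := ((1, v), j))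
        (s := ((1, v), j - 1)) ?_ ?_
      · intro t ht
        rw [e] at ht
        rcases nZ ht with h | ⟨-, h⟩ | h | ⟨-, h⟩
        · exact Or.inl h
        · exact Or.inr (Or.inl h)
        · exact Or.inr (Or.inr (Or.inl h))
        · exact Or.inr (Or.inr (Or.inr h))
      · intro t ht
        rw [e]
        rcases nB ht with h | h | ⟨k, hk', -⟩
        · exact Or.inr (Or.inr (Or.inl h))
        · rw [Nat.sub_add_cancel (by omega)] at h
          exact Or.inl h
        · omega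
    · refine no_centre hf (n1 := ((0, v), j + 1)) (n2 := ((0, v), j - 1)) (n3 := ((1, v), j - 1))
        (s := ((1, v), j)) ?_ ?_
      · intro t ht
        rw [e] at ht
        rcases nZ ht with h | ⟨-, h⟩ | h | ⟨-, h⟩
        · exact Or.inl h
        · exact Or.inr (Or.inl h)
        · exact Or.inr (Or.inr (Or.inr h))
        · exact Or.inr (Or.inr (Or.inl h))
      · intro t ht
        rw [e]
        rcases nB ht with h | h | ⟨k, hk', -⟩
        · exact Or.inl h
        · exact Or.inr (Or.inl h)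
        · omega
  · by_cases hp : j % 2 = 0
    · obtain ⟨k, rfl⟩ : ∃ k, j = 2 * k := ⟨j / 2, by omega⟩
      refine no_centre hf (n1 := ((0, v), 2 * k)) (n2 := ((0, v), 2 * k + 1)) (n3 := ((2, v), k))
        (s := ((3, v), k)) ?_ ?_
      · intro t ht
        rw [e] at ht
        rcases nB ht with h | h | ⟨k', hk', h⟩
        · exact Or.inl h
        · exact Or.inr (Or.inl h)
        · obtain rfl : k = k' := by omega
          rcases h with h | h
          · exact Or.inr (Or.inr (Or.inl h))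
          · exact Or.inr (Or.inr (Or.inr h))
      · intro t ht
        rw [e]
        rcases nQ ht with h | h
        · exact Or.inl h
        · exact Or.inr (Or.inr (Or.inr h))
    · refine no_centre hf (n1 := ((0, v), j)) (n2 := ((0, v), j + 1)) (n3 := ((0, v), j))
        (s := ((1, v), j)) ?_ ?_
      · intro t ht
        rw [e] at ht
        rcases nB ht with h | h | ⟨k', hk', h⟩
        · exact Or.inl h
        · exact Or.inr (Or.inl h)
        · omega
      · intro t ht
        rcases nB ht with h | h | ⟨k', hk', h⟩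
        · exact Or.inr (Or.inl h)
        · exact Or.inr (Or.inr (Or.inl h))
        · omega
  · have hs : ∀ t, La (vs C N) (ad C) ((3, v), j) t → t = ((2, v), j) ∨ t = ((1, v), 2 * j) :=
      fun t ht => (nQ ht).symm
    by_cases hp : j % 3 = 0
    · refine no_centre hf (n1 := ((1, v), 2 * j)) (n2 := ((2, (cn C j).2.1), j + 1))
        (n3 := ((2, (cn C j).2.2), j + 2)) (s := ((3, v), j)) ?_ ?_
      · intro t ht
        rw [e] at ht
        rcases nP ht with h | h | ⟨h, -⟩ | ⟨-, -, h | h⟩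
        · exact Or.inl h
        · exact Or.inr (Or.inr (Or.inr h))
        · omega
        · exact Or.inr (Or.inl h)
        · exact Or.inr (Or.inr (Or.inl h))
      · intro t ht
        rw [e]
        rcases hs t ht with h | h
        · exact Or.inl h
        · exact Or.inr (Or.inl h)
    · refine no_centre hf (n1 := ((1, v), 2 * j)) (n2 := ((2, (cn C j).1), 3 * (j / 3)))
        (n3 := ((2, (cn C j).1), 3 * (j / 3))) (s := ((3, v), j)) ?_ ?_
      · intro t ht
        rw [e] at ht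
        rcases nP ht with h | h | ⟨-, h⟩ | ⟨h, -⟩
        · exact Or.inl h
        · exact Or.inr (Or.inr (Or.inr h))
        · exact Or.inr (Or.inl h)
        · omega
      · intro t ht
        rw [e]
        rcases hs t ht with h | h
        · exact Or.inl h
        · exact Or.inr (Or.inl h)
  · refine no_centre hf (n1 := ((1, v), 2 * j)) (n2 := ((2, v), j)) (n3 := ((2, v), j))
      (s := ((3, v), j)) ?_ ?_
    · intro t ht
      rw [e] at ht
      rcases nQ ht with h | h
      · exact Or.inl h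
      · exact Or.inr (Or.inl h)
    · intro t ht
      rcases nQ ht with h | h
      · exact Or.inr (Or.inl h)
      · exact Or.inr (Or.inr (Or.inl h))

theorem free_graph (C : Con) (N : ℕ) : S2222.Free (labGraph (vs C N) (ad C)).graph :=
  free_lab (nodup_vs C N) (fun f => no_hit f)

end Nb

end Pool.Agent.Q324.MCut
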